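import Pool.Agent.MBX.Stmts

set_option autoImplicit false

open MeasureTheory Complex ProbabilityTheory

noncomputable section

namespace Pool.Agent.MBX.H81

open Pool.Agent.Helper49_Pauli Pool.Agent.MBX

/-- the scalar product with `k` as a continuous linear form -/
def ell (k : X3) : X3 →L[ℝ] ℝ := ∑ j, k j • (ContinuousLinearMap.proj j : X3 →L[ℝ] ℝ)

theorem ell_apply (k x : X3) : ell k x = dot k x := by
  simp [ell, dot]

theorem dot_single (k : X3) (a : Fin 3) : dot k (Pi.single a 1) = k a := by
  unfold dot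
  rw [Finset.sum_eq_single a]
  · simp
  · intro b _ hb
    rw [Pi.single_eq_of_ne hb, mul_zero]
  · intro h
    exact absurd (Finset.mem_univ a) h

theorem hasFDerivAt_dot (k : X3) (t : ℝ) (x : X3) :
    HasFDerivAt (fun z => dot k z - t) (ell k) x := by
  have h : (fun z => dot k z - t) = fun z => ell k z - t := by
    funext z
    rw [ell_apply]
  rw [h]
  exact (ell k).hasFDerivAt.sub_const t

theorem hasFDerivAt_cos (k : X3) (t : ℝ) (x : X3) :
    HasFDerivAt (fun z => Real.cos (dot k z - t)) (-(Real.sin (dot k x - t)) • ell k) x :=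
  (hasFDerivAt_dot k t x).cos

theorem contDiff_dot (k : X3) (t : ℝ) : ContDiff ℝ (⊤ : ℕ∞) (fun z => dot k z - t) := by
  have h : (fun z => dot k z - t) = fun z => ell k z - t := by
    funext z
    rw [ell_apply]
  rw [h]
  exact (ell k).contDiff.sub contDiff_const

variable {cut L : ℝ}

theorem contDiff_VV (alpha : ℝ) (P : Polarization L) (y : Mode cut L → ℝ) (j : Fin 3) :
    ContDiff ℝ (⊤ : ℕ∞) fun x => VV alpha P y x j := by
  unfold VV
  refine contDiff_const.mul (ContDiff.sum fun i _ => ?_)
  exact contDiff_const.mul ((contDiff_const.mul (contDiff_dot _ _).cos).mul contDiff_const)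

theorem hasFDerivAt_VV (alpha : ℝ) (P : Polarization L) (y : Mode cut L → ℝ) (j : Fin 3)
    (x : X3) : HasFDerivAt (fun z => VV alpha P y z j)
      (Real.sqrt alpha • ∑ i, y i • (P.e i.1 i.2 j • (am i • (-(Real.sin (dot (kk i) x - tt i)) •
        ell (kk i))))) x := by
  unfold VV
  refine HasFDerivAt.const_mul (HasFDerivAt.fun_sum fun i _ => ?_) _
  exact (((hasFDerivAt_cos (kk i) (tt i) x).const_mul (am i)).mul_const (P.e i.1 i.2 j)).const_mul
    (y i)

theorem pd_VV (alpha : ℝ) (P : Polarization L) (y : Mode cut L → ℝ) (j a : Fin 3) (x : X3) :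
    pd a (fun z => VV alpha P y z j) x =
      -(Real.sqrt alpha * ∑ i, y i * (am i * Real.sin (dot (kk i) x - tt i) *
        (kk i a * P.e i.1 i.2 j))) := by
  unfold pd
  rw [(hasFDerivAt_VV alpha P y j x).fderiv, _root_.smul_apply,
    _root_.sum_apply, smul_eq_mul, ← mul_neg, ← Finset.sum_neg_distrib]
  congr 1
  refine Finset.sum_congr rfl fun i _ => ?_
  simp only [_root_.smul_apply, smul_eq_mul, ell_apply, dot_single]
  ring

/-- **CRL** -/
theorem crl : CrlStmt := by
  intro cut L alpha P y
  refine ⟨contDiff_VV alpha P y, fun x => ?_⟩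
  have key : ∀ a b c d : Fin 3,
      pd a (fun z => VV alpha P y z b) x - pd c (fun z => VV alpha P y z d) x =
        -(Real.sqrt alpha * ∑ i, y i * (am i * Real.sin (dot (kk i) x - tt i) *
          (kk i a * P.e i.1 i.2 b - kk i c * P.e i.1 i.2 d))) := by
    intro a b c d
    rw [pd_VV, pd_VV, ← neg_add', ← sub_eq_add_neg, ← mul_sub, ← Finset.sum_sub_distrib]
    congr 2
    refine Finset.sum_congr rfl fun i _ => ?_
    ring
  funext j
  fin_cases j
  · exact key 1 2 2 1
  · exact key 2 0 0 2
  · exact key 0 1 1 0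

end Pool.Agent.MBX.H81
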