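import Pool.Agent.MBX.Stmts

set_option autoImplicit false

open MeasureTheory Complex ProbabilityTheory

noncomputable section

namespace Pool.Agent.MBX.H81

open Pool.Agent.Helper49_Pauli Pool.Agent.MBX
open Pool.Agent.Helper75_Pauli (Half.complete)

/-! ### vectors -/

theorem dot_crs_self (k v : X3) : dot k (crs k v) = 0 := by
  simp [dot, crs, Fin.sum_univ_three]
  ring

theorem sq_crs (a b : X3) : Helper49_Pauli.sq (crs a b) =
    Helper49_Pauli.sq a * Helper49_Pauli.sq b - dot a b ^ 2 := by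
  simp [Helper49_Pauli.sq, dot, crs, Fin.sum_univ_three]
  ring

theorem dot_sq_le (a b : X3) : dot a b ^ 2 ≤ Helper49_Pauli.sq a * Helper49_Pauli.sq b := by
  have h := sq_crs a b
  have h2 : 0 ≤ Helper49_Pauli.sq (crs a b) := Finset.sum_nonneg fun _ _ => sq_nonneg _
  linarith

theorem sq_eq_dot (a : X3) : Helper49_Pauli.sq a = dot a a := by
  unfold Helper49_Pauli.sq dot
  exact Finset.sum_congr rfl fun j _ => by ring

section

variable {cut L : ℝ}

theorem sq_e (P : Polarization L) (i : Mode cut L) :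
    Helper49_Pauli.sq (P.e i.1 i.2) = 1 := by
  rw [sq_eq_dot, P.orthonormal _ (Helper75_Pauli.Half.mode_ne i), if_pos rfl]

theorem freq_nonneg (n : Fin 3 → ℤ) : 0 ≤ freq L n := Real.sqrt_nonneg _

theorem om_sq (i : Mode cut L) : om i ^ 2 = Helper49_Pauli.sq (kk i) := by
  unfold om freq kk
  exact Real.sq_sqrt (Finset.sum_nonneg fun _ _ => sq_nonneg _)

theorem om_nonneg (i : Mode cut L) : 0 ≤ om i := freq_nonneg _

theorem om_lt (i : Mode cut L) : om i < cut := (Helper75_Pauli.Half.mem_momenta i.1.2).2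

theorem sq_kk_le (i : Mode cut L) : Helper49_Pauli.sq (kk i) ≤ cut ^ 2 := by
  rw [← om_sq]
  exact pow_le_pow_left₀ (om_nonneg i) (om_lt i).le 2

/-- the cofficient `d_(i,l')` of the map `HC` -/
theorem coef_sq_le (P : Polarization L) (i j : Mode cut L) :
    dot (P.e i.1 i.2) (crs (kk j) (P.e j.1 j.2)) ^ 2 ≤ cut ^ 2 := by
  refine (dot_sq_le _ _).trans ?_
  rw [sq_e, one_mul, sq_crs, sq_e, mul_one]
  have := sq_kk_le j
  nlinarith [sq_nonneg (dot (kk j) (P.e j.1 j.2))]

theorem ng_ne (n : {n : Fin 3 → ℤ // n ∈ momenta cut L}) : Helper75_Pauli.Half.ng n ≠ n := by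
  intro h
  have h1 : -(n : Fin 3 → ℤ) = n := congrArg Subtype.val h
  have h2 := (Helper75_Pauli.Half.mem_momenta n.2).1
  apply h2
  funext j
  have h3 := congrFun h1 j
  rw [Pi.neg_apply] at h3
  rw [Pi.zero_apply]
  omega

theorem opp_ne (i : Mode cut L) (l : Fin 2) : opp i l ≠ i := by
  intro h
  exact ng_ne i.1 (congrArg Prod.fst h)

/-- the phase of the opposite mode -/
theorem cos_opp {n : Fin 3 → ℤ} (hn : n ≠ 0) (x : X3) :
    Real.cos (dot (wave L (-n)) x - Helper75_Pauli.Half.th (-n)) =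
      -Real.sin (dot (wave L n) x - Helper75_Pauli.Half.th n) := by
  rw [Helper75_Pauli.Half.wave_neg, Helper75_Pauli.Half.dot_neg]
  unfold Helper75_Pauli.Half.th
  by_cases h : Helper75_Pauli.Half.Hp n
  · have h' : ¬ Helper75_Pauli.Half.Hp (-n) := by
      rw [Helper75_Pauli.Half.hp_neg n hn]
      simpa using h
    rw [if_neg h', if_pos h, sub_zero, Real.cos_sub_pi_div_two, Real.sin_neg]
  · have h' : Helper75_Pauli.Half.Hp (-n) := by
      rw [Helper75_Pauli.Half.hp_neg n hn]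
      exact h
    rw [if_pos h', if_neg h, sub_zero, Real.cos_neg, Real.sin_sub_pi_div_two, neg_neg]

/-- reindexing `n ↦ -n` -/
theorem sum_ng (f : {n : Fin 3 → ℤ // n ∈ momenta cut L} → ℝ) :
    ∑ n, f (Helper75_Pauli.Half.ng n) = ∑ n, f n :=
  Equiv.sum_comp (Function.Involutive.toPerm Helper75_Pauli.Half.ng Helper75_Pauli.Half.ng_ng) f

theorem am_ng (n : {n : Fin 3 → ℤ // n ∈ momenta cut L}) (l l' : Fin 2) :
    am ((Helper75_Pauli.Half.ng n, l) : Mode cut L) = am ((n, l') : Mode cut L) := by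
  unfold am om
  have h : freq L (Helper75_Pauli.Half.ng n) = freq L n := Helper75_Pauli.Half.freq_neg L n
  show 1 / Real.sqrt (L ^ 3 * freq L (Helper75_Pauli.Half.ng n)) = 1 / Real.sqrt (L ^ 3 * freq L n)
  rw [h]

theorem BB_eq (hL : 0 < L) (alpha : ℝ) (P : Polarization L) (y : Mode cut L → ℝ) (x : X3) :
    BB alpha P y x = VV alpha P (HC P y) x := by
  funext j
  unfold BB VV
  rw [← mul_neg, ← Finset.sum_neg_distrib]
  congr 1
  rw [Fintype.sum_prod_type, Fintype.sum_prod_type, ← sum_ng]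
  refine Finset.sum_congr rfl fun n _ => ?_
  -- `n` is the momentum on the right, `-n` the one on the left
  have hn : (n : Fin 3 → ℤ) ≠ 0 := (Helper75_Pauli.Half.mem_momenta n.2).1
  have hcos : ∀ l : Fin 2, Real.sin (dot (kk ((Helper75_Pauli.Half.ng n, l) : Mode cut L)) x -
      tt ((Helper75_Pauli.Half.ng n, l) : Mode cut L)) =
      -Real.cos (dot (kk ((n, (0 : Fin 2)) : Mode cut L)) x - tt ((n, (0 : Fin 2)) : Mode cut L)) := by
    intro l
    have h := cos_opp (L := L) (neg_ne_zero.mpr hn) x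
    rw [neg_neg] at h
    exact (neg_eq_iff_eq_neg.mpr h).symm
  have hw : ∀ l' : Fin 2, dot (wave L n) (crs (kk ((Helper75_Pauli.Half.ng n, l') : Mode cut L))
      (P.e (Helper75_Pauli.Half.ng n) l')) = 0 := by
    intro l'
    have h := dot_crs_self (kk ((Helper75_Pauli.Half.ng n, l') : Mode cut L))
      (P.e (Helper75_Pauli.Half.ng n) l')
    have h2 : kk ((Helper75_Pauli.Half.ng n, l') : Mode cut L) = -wave L n :=
      Helper75_Pauli.Half.wave_neg L n
    rw [h2, Helper75_Pauli.Half.dot_neg, neg_eq_zero] at h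
    rw [h2]
    exact h
  have hcomp := fun l' : Fin 2 => Helper75_Pauli.Half.complete P hL hn
    (crs (kk ((Helper75_Pauli.Half.ng n, l') : Mode cut L)) (P.e (Helper75_Pauli.Half.ng n) l'))
    (hw l') j
  unfold HC opp
  simp only [Fin.sum_univ_two] at hcomp ⊢
  have a0 := am_ng n 0 0
  have a1 := am_ng n 1 0
  have a2 : am ((n, (1 : Fin 2)) : Mode cut L) = am ((n, (0 : Fin 2)) : Mode cut L) := rfl
  have k2 : kk ((n, (1 : Fin 2)) : Mode cut L) = kk ((n, (0 : Fin 2)) : Mode cut L) := rfl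
  have t2 : tt ((n, (1 : Fin 2)) : Mode cut L) = tt ((n, (0 : Fin 2)) : Mode cut L) := rfl
  rw [hcos 0, hcos 1, a0, a1, a2, k2, t2, ← hcomp 0, ← hcomp 1]
  ring

theorem nn_HC_le (P : Polarization L) (y : Mode cut L → ℝ) :
    nn (HC P y) ≤ 4 * cut ^ 2 * nn y := by
  unfold nn
  rw [Fintype.sum_prod_type, Fintype.sum_prod_type, ← sum_ng, Finset.mul_sum]
  refine Finset.sum_le_sum fun n _ => ?_
  have key : ∀ l : Fin 2, HC P y ((Helper75_Pauli.Half.ng n, l) : Mode cut L) ^ 2 ≤
      2 * cut ^ 2 * (y (n, 0) ^ 2 + y (n, 1) ^ 2) := by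
    intro l
    unfold HC opp
    rw [Fin.sum_univ_two]
    have hng : (Helper75_Pauli.Half.ng ((Helper75_Pauli.Half.ng n, l) : Mode cut L).1) = n :=
      Helper75_Pauli.Half.ng_ng n
    rw [hng]
    have c0 := coef_sq_le P ((Helper75_Pauli.Half.ng n, l) : Mode cut L) (n, 0)
    have c1 := coef_sq_le P ((Helper75_Pauli.Half.ng n, l) : Mode cut L) (n, 1)
    set d0 := dot (P.e ((Helper75_Pauli.Half.ng n, l) : Mode cut L).1
      ((Helper75_Pauli.Half.ng n, l) : Mode cut L).2)
      (crs (kk ((n, 0) : Mode cut L)) (P.e ((n, 0) : Mode cut L).1 ((n, 0) : Mode cut L).2))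
    set d1 := dot (P.e ((Helper75_Pauli.Half.ng n, l) : Mode cut L).1
      ((Helper75_Pauli.Half.ng n, l) : Mode cut L).2)
      (crs (kk ((n, 1) : Mode cut L)) (P.e ((n, 1) : Mode cut L).1 ((n, 1) : Mode cut L).2))
    have h0 := mul_le_mul_of_nonneg_left c0 (sq_nonneg (y (n, 0)))
    have h1 := mul_le_mul_of_nonneg_left c1 (sq_nonneg (y (n, 1)))
    nlinarith [sq_nonneg (y (n, 0) * d0 - y (n, 1) * d1)]
  have k0 := key 0
  have k1 := key 1
  rw [Fin.sum_univ_two, Fin.sum_univ_two]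
  have e0 : y ((Helper75_Pauli.Half.ng (Helper75_Pauli.Half.ng n), 0) : Mode cut L) = y (n, 0) := by
    rw [Helper75_Pauli.Half.ng_ng]
  nlinarith [sq_nonneg (y (n, 0)), sq_nonneg (y (n, 1)), sq_nonneg cut]

theorem HC_update (P : Polarization L) (y : Mode cut L → ℝ) (i : Mode cut L) (t : ℝ) :
    HC P (Function.update y i t) i = HC P y i := by
  unfold HC
  refine Finset.sum_congr rfl fun l _ => ?_
  rw [Function.update_of_ne (opp_ne i l)]

end

/-- **HEL** -/
theorem hel : HelStmt := by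
  intro cut L P hL
  exact ⟨fun alpha y x => BB_eq hL alpha P y x, nn_HC_le P, HC_update P⟩

end Pool.Agent.MBX.H81
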