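import Pool.Agent.Helper81_MBX.CRL
import Pool.Agent.Helper81_MBX.HEL

set_option autoImplicit false

open MeasureTheory Complex ProbabilityTheory

noncomputable section

namespace Pool.Agent.MBX.H81

open Pool.Agent.Helper49_Pauli Pool.Agent.MBX

theorem wave_add' (L : ℝ) (n n' : Fin 3 → ℤ) : wave L n + wave L n' = wave L (n + n') := by
  funext j
  simp only [wave, Pi.add_apply, Int.cast_add]
  ring

theorem wave_sub' (L : ℝ) (n n' : Fin 3 → ℤ) : wave L n - wave L n' = wave L (n - n') := by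
  funext j
  simp only [wave, Pi.sub_apply, Int.cast_sub]
  ring

theorem sq_wave_ge {L : ℝ} {n : Fin 3 → ℤ} (hn : n ≠ 0) :
    (2 * Real.pi / L) ^ 2 ≤ Helper49_Pauli.sq (wave L n) := by
  obtain ⟨j, hj⟩ := Function.ne_iff.mp hn
  have h1 : (1 : ℝ) ≤ (n j : ℝ) ^ 2 := by
    have h2 : (1 : ℤ) ≤ n j ^ 2 := by
      have h3 : n j ≠ 0 := hj
      have h4 : 0 < n j ^ 2 := by positivity
      omega
    exact_mod_cast h2
  have h5 : wave L n j ^ 2 ≤ Helper49_Pauli.sq (wave L n) :=
    Finset.single_le_sum (f := fun j => wave L n j ^ 2) (fun _ _ => sq_nonneg _)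
      (Finset.mem_univ j)
  refine le_trans ?_ h5
  unfold wave
  rw [mul_pow]
  exact le_mul_of_one_le_right (sq_nonneg _) h1

theorem hasFDerivAt_sin (k : X3) (t : ℝ) (x : X3) :
    HasFDerivAt (fun z => Real.sin (dot k z - t)) (Real.cos (dot k x - t) • ell k) x :=
  (hasFDerivAt_dot k t x).sin

theorem pd_sin (k : X3) (t : ℝ) (j : Fin 3) (x : X3) :
    pd j (fun z => Real.sin (dot k z - t)) x = Real.cos (dot k x - t) * k j := by
  unfold pd
  rw [(hasFDerivAt_sin k t x).fderiv, _root_.smul_apply, smul_eq_mul, ell_apply, dot_single]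

theorem dot_sub_left (a b x : X3) : dot (a - b) x = dot a x - dot b x := by
  unfold dot
  rw [← Finset.sum_sub_distrib]
  exact Finset.sum_congr rfl fun j _ => by rw [Pi.sub_apply]; ring

theorem dot_add_left (a b x : X3) : dot (a + b) x = dot a x + dot b x := by
  unfold dot
  rw [← Finset.sum_add_distrib]
  exact Finset.sum_congr rfl fun j _ => by rw [Pi.add_apply]; ring

theorem dot_smul_left (c : ℝ) (a x : X3) : dot (c • a) x = c * dot a x := by
  unfold dot
  rw [Finset.mul_sum]
  exact Finset.sum_congr rfl fun j _ => by rw [Pi.smul_apply, smul_eq_mul]; ring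

theorem dot_crs_crs (a b c d : X3) :
    dot (crs a b) (crs c d) = dot a c * dot b d - dot a d * dot b c := by
  simp [dot, crs, Fin.sum_univ_three]
  ring

/-- weights times `|f|^2` are integrable -/
theorem integrable_rho {f : X3 → ℂ} (hf : CS f) {g : X3 → ℝ} (hg : Continuous g) :
    Integrable (fun x => g x * ‖f x‖ ^ 2) := by
  refine Continuous.integrable_of_hasCompactSupport (hg.mul (hf.1.continuous.norm.pow 2)) ?_
  have h1 : HasCompactSupport (fun x => ‖f x‖ ^ 2) :=
    hf.2.comp_left (g := fun z : ℂ => ‖z‖ ^ 2) (by simp)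
  exact h1.mul_left

section

variable {cut L : ℝ}

/-- the direction of the magnetic field of the mode `i` -/
def uv (P : Polarization L) (i : Mode cut L) : X3 := (om i)⁻¹ • crs (kk i) (P.e i.1 i.2)

theorem om_pos (hL : 0 < L) (i : Mode cut L) : 0 < om i := by
  unfold om freq
  exact Real.sqrt_pos.mpr (Helper75_Pauli.Half.sqn_wave_pos hL (Helper75_Pauli.Half.mode_ne i))

theorem sq_crs_mode (P : Polarization L) (i : Mode cut L) :
    Helper49_Pauli.sq (crs (kk i) (P.e i.1 i.2)) = om i ^ 2 := by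
  rw [sq_crs, sq_e, mul_one, om_sq]
  have h : dot (kk i) (P.e i.1 i.2) = 0 := P.transverse _ (Helper75_Pauli.Half.mode_ne i) _
  rw [h]
  ring

theorem sq_uv (hL : 0 < L) (P : Polarization L) (i : Mode cut L) :
    Helper49_Pauli.sq (uv P i) = 1 := by
  have h := om_pos hL i
  rw [sq_eq_dot]
  unfold uv
  rw [dot_smul_left, Helper75_Pauli.Half.dot_comm', dot_smul_left, ← sq_eq_dot, sq_crs_mode]
  field_simp

theorem abs_uv_le (hL : 0 < L) (P : Polarization L) (i : Mode cut L) (c : Fin 3) :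
    |uv P i c| ≤ 1 := by
  have h1 : uv P i c ^ 2 ≤ Helper49_Pauli.sq (uv P i) :=
    Finset.single_le_sum (f := fun j => uv P i j ^ 2) (fun _ _ => sq_nonneg _)
      (Finset.mem_univ c)
  rw [sq_uv hL] at h1
  exact abs_le_one_iff_mul_self_le_one.mpr (by nlinarith)

/-- the coefficient of the mode `j` -/
def dd (P : Polarization L) (i j : Mode cut L) : ℝ := dot (uv P i) (crs (kk j) (P.e j.1 j.2))

theorem abs_dd_le (hL : 0 < L) (P : Polarization L) (i j : Mode cut L) : |dd P i j| ≤ om j := by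
  have h := dot_sq_le (uv P i) (crs (kk j) (P.e j.1 j.2))
  rw [sq_uv hL, one_mul, sq_crs_mode] at h
  exact abs_le_of_sq_le_sq h (om_nonneg j)

theorem dd_self (hL : 0 < L) (P : Polarization L) (i : Mode cut L) : dd P i i = om i := by
  have h := om_pos hL i
  unfold dd uv
  rw [dot_smul_left, ← sq_eq_dot, sq_crs_mode]
  field_simp

theorem dd_zero (P : Polarization L) (i j : Mode cut L) (h1 : j.1 = i.1) (h2 : j ≠ i) :
    dd P i j = 0 := by
  have h3 : j.2 ≠ i.2 := fun h => h2 (Prod.ext h1 h)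
  have hk : kk j = kk i := by
    unfold kk
    rw [h1]
  have hn := Helper75_Pauli.Half.mode_ne i
  unfold dd uv
  rw [dot_smul_left, dot_crs_crs, hk, h1, P.orthonormal _ hn, if_neg (Ne.symm h3)]
  have h4 : dot (kk i) (P.e i.1 j.2) = 0 := P.transverse _ hn _
  rw [h4]
  ring

theorem am_nonneg (i : Mode cut L) : 0 ≤ am i := by
  unfold am
  positivity

/-- `am om ≤ cut^2` -/
theorem am_om_le (hL : 0 < L) (hcut : 2 * Real.pi < L * cut) (i : Mode cut L) :
    am i * om i ≤ cut ^ 2 := by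
  have h0 := om_pos hL i
  have h1 := om_lt i
  have h2 : 1 ≤ L * cut := by linarith [Real.pi_gt_three]
  have hc : 0 < cut := h0.trans h1
  have hL3 : 0 < L ^ 3 * om i := by positivity
  have h3 : 0 < Real.sqrt (L ^ 3 * om i) := Real.sqrt_pos.mpr hL3
  unfold am
  rw [one_div, inv_mul_le_iff₀ h3]
  have h4 : om i = Real.sqrt (om i ^ 2) := (Real.sqrt_sq h0.le).symm
  have h5 : Real.sqrt (L ^ 3 * om i) * cut ^ 2 = Real.sqrt (L ^ 3 * om i * (cut ^ 2) ^ 2) := by
    rw [Real.sqrt_mul hL3.le, Real.sqrt_sq (by positivity)]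
  rw [h5]
  conv_lhs => rw [h4]
  refine Real.sqrt_le_sqrt ?_
  have h6 : 1 ≤ (L * cut) ^ 3 := one_le_pow₀ h2
  calc om i ^ 2 = om i * om i := sq _
    _ ≤ om i * cut := mul_le_mul_of_nonneg_left h1.le h0.le
    _ ≤ (om i * cut) * (L * cut) ^ 3 := le_mul_of_one_le_right (by positivity) h6
    _ = L ^ 3 * om i * (cut ^ 2) ^ 2 := by ring

/-- the phases of opposite modes add up to `pi / 2` -/
theorem tt_add (i j : Mode cut L) (h : (j.1 : Fin 3 → ℤ) = -(i.1 : Fin 3 → ℤ)) :
    tt i + tt j = Real.pi / 2 := by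
  have hn := Helper75_Pauli.Half.mode_ne i
  unfold tt Helper75_Pauli.Half.th
  rw [h]
  by_cases h1 : Helper75_Pauli.Half.Hp (i.1 : Fin 3 → ℤ)
  · have h' : ¬ Helper75_Pauli.Half.Hp (-(i.1 : Fin 3 → ℤ)) := by
      rw [Helper75_Pauli.Half.hp_neg _ hn]
      simpa using h1
    rw [if_neg h', if_pos h1, zero_add]
  · have h' : Helper75_Pauli.Half.Hp (-(i.1 : Fin 3 → ℤ)) := by
      rw [Helper75_Pauli.Half.hp_neg _ hn]
      exact h1
    rw [if_pos h', if_neg h1, add_zero]

/-- the two oscillating integrals -/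
def IA (f : X3 → ℂ) (i j : Mode cut L) : ℝ :=
  ∫ x, Real.cos (dot (kk i - kk j) x - (tt i - tt j)) * ‖f x‖ ^ 2

def IC (f : X3 → ℂ) (i j : Mode cut L) : ℝ :=
  ∫ x, Real.cos (dot (kk i + kk j) x - (tt i + tt j)) * ‖f x‖ ^ 2

theorem osc_bound (hOSC : OscStmt) {V : X3 → X3} (hV : ∀ j, ContDiff ℝ (⊤ : ℕ∞) fun x => V x j)
    {f : X3 → ℂ} (hf : CS f) (hL : 0 < L) {n : Fin 3 → ℤ} (hn : n ≠ 0) (tau : ℝ) {w : ℝ}
    (hw : 0 ≤ w) (hme : (∫ x, ‖f x‖ ^ 2) * (∫ x, ∑ j, ‖cv V j f x‖ ^ 2) ≤ w ^ 2) :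
    |∫ x, Real.cos (dot (wave L n) x - tau) * ‖f x‖ ^ 2| ≤ L * w / Real.pi := by
  have hpi := Real.pi_pos
  have h1 := sq_wave_ge (L := L) hn
  have h2 : 0 < 2 * Real.pi / L := by positivity
  have h3 : 0 < Helper49_Pauli.sq (wave L n) := lt_of_lt_of_le (by positivity) h1
  have h4 := hOSC V hV f hf (wave L n) tau w h3 hw hme
  have h5 : 2 * Real.pi / L ≤ Real.sqrt (Helper49_Pauli.sq (wave L n)) := Real.le_sqrt_of_sq_le h1
  refine h4.trans ?_
  calc 2 * w / Real.sqrt (Helper49_Pauli.sq (wave L n)) ≤ 2 * w / (2 * Real.pi / L) :=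
        div_le_div_of_nonneg_left (by positivity) h2 h5
    _ = L * w / Real.pi := by field_simp

theorem IA_le (hOSC : OscStmt) {V : X3 → X3} (hV : ∀ j, ContDiff ℝ (⊤ : ℕ∞) fun x => V x j)
    {f : X3 → ℂ} (hf : CS f) (hL : 0 < L) {i j : Mode cut L} (hn : j.1 ≠ i.1) {w : ℝ}
    (hw : 0 ≤ w) (hme : (∫ x, ‖f x‖ ^ 2) * (∫ x, ∑ j, ‖cv V j f x‖ ^ 2) ≤ w ^ 2) :
    |IA f i j| ≤ L * w / Real.pi := by
  unfold IA kk
  rw [wave_sub']
  refine osc_bound hOSC hV hf hL ?_ _ hw hme
  intro h
  exact hn (Subtype.ext (sub_eq_zero.mp h).symm)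

theorem IC_le (hOSC : OscStmt) {V : X3 → X3} (hV : ∀ j, ContDiff ℝ (⊤ : ℕ∞) fun x => V x j)
    {f : X3 → ℂ} (hf : CS f) (hL : 0 < L) (i j : Mode cut L) {w : ℝ}
    (hw : 0 ≤ w) (hme : (∫ x, ‖f x‖ ^ 2) * (∫ x, ∑ j, ‖cv V j f x‖ ^ 2) ≤ w ^ 2) :
    |IC f i j| ≤ L * w / Real.pi := by
  by_cases h : (i.1 : Fin 3 → ℤ) + (j.1 : Fin 3 → ℤ) = 0
  · have h1 : (j.1 : Fin 3 → ℤ) = -(i.1 : Fin 3 → ℤ) := by
      rw [eq_neg_iff_add_eq_zero, add_comm]
      exact h
    have h2 : IC f i j = 0 := by
      unfold IC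
      have h3 : ∀ x : X3, Real.cos (dot (kk i + kk j) x - (tt i + tt j)) * ‖f x‖ ^ 2 = 0 := by
        intro x
        have h4 : kk i + kk j = 0 := by
          unfold kk
          rw [wave_add', h]
          funext c
          simp [wave]
        rw [h4, tt_add i j h1]
        have h5 : dot 0 x = 0 := by simp [dot]
        rw [h5, zero_sub, Real.cos_neg, Real.cos_pi_div_two, zero_mul]
      simp only [h3, integral_zero]
    rw [h2, abs_zero]
    have := Real.pi_pos
    positivity
  · unfold IC kk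
    rw [wave_add']
    exact osc_bound hOSC hV hf hL h _ hw hme

theorem sin_mul_sin (a b : ℝ) :
    Real.sin a * Real.sin b = 1 / 2 * (Real.cos (a - b) - Real.cos (a + b)) := by
  rw [Real.cos_sub, Real.cos_add]
  ring

/-- pointwise expansion -/
theorem expand (alpha : ℝ) (P : Polarization L) (y : Mode cut L → ℝ) (i : Mode cut L) (x : X3) :
    Real.sin (dot (kk i) x - tt i) * ∑ c, uv P i c * BB alpha P y x c =
      -(Real.sqrt alpha * ∑ j, (y j * am j * dd P i j * (1 / 2)) *
        (Real.cos (dot (kk i - kk j) x - (tt i - tt j)) -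
          Real.cos (dot (kk i + kk j) x - (tt i + tt j)))) := by
  have h1 : ∑ c, uv P i c * BB alpha P y x c =
      -(Real.sqrt alpha * ∑ j, y j * am j * dd P i j * Real.sin (dot (kk j) x - tt j)) := by
    unfold BB dd dot
    simp only [Finset.mul_sum, Finset.sum_mul, ← Finset.sum_neg_distrib]
    rw [Finset.sum_comm]
    refine Finset.sum_congr rfl fun j _ => Finset.sum_congr rfl fun c _ => ?_
    ring
  rw [h1, mul_neg, mul_left_comm, Finset.mul_sum]
  congr 2
  refine Finset.sum_congr rfl fun j _ => ?_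
  have h2 : dot (kk i - kk j) x - (tt i - tt j) = (dot (kk i) x - tt i) - (dot (kk j) x - tt j) := by
    rw [dot_sub_left]
    ring
  have h3 : dot (kk i + kk j) x - (tt i + tt j) = (dot (kk i) x - tt i) + (dot (kk j) x - tt j) := by
    rw [dot_add_left]
    ring
  rw [h2, h3]
  have h4 := sin_mul_sin (dot (kk i) x - tt i) (dot (kk j) x - tt j)
  linear_combination (y j * am j * dd P i j) * h4

theorem continuous_cos (k : X3) (t : ℝ) : Continuous fun x => Real.cos (dot k x - t) :=
  Real.continuous_cos.comp (contDiff_dot k t).continuous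

/-- the integral -/
theorem integral_expand (alpha : ℝ) (P : Polarization L) (y : Mode cut L → ℝ) (i : Mode cut L)
    {f : X3 → ℂ} (hf : CS f) :
    ∫ x, (Real.sin (dot (kk i) x - tt i) * ∑ c, uv P i c * BB alpha P y x c) * ‖f x‖ ^ 2 =
      -(Real.sqrt alpha * ∑ j, (y j * am j * dd P i j * (1 / 2)) * (IA f i j - IC f i j)) := by
  have h1 : ∀ x : X3, (Real.sin (dot (kk i) x - tt i) * ∑ c, uv P i c * BB alpha P y x c) *
      ‖f x‖ ^ 2 = -(Real.sqrt alpha) * ∑ j, (y j * am j * dd P i j * (1 / 2)) *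
        (Real.cos (dot (kk i - kk j) x - (tt i - tt j)) * ‖f x‖ ^ 2 -
          Real.cos (dot (kk i + kk j) x - (tt i + tt j)) * ‖f x‖ ^ 2) := by
    intro x
    rw [expand, neg_mul, neg_mul, mul_assoc, Finset.sum_mul]
    congr 2
    refine Finset.sum_congr rfl fun j _ => ?_
    ring
  simp only [h1]
  rw [integral_const_mul, integral_finsetSum, neg_mul]
  · congr 2
    refine Finset.sum_congr rfl fun j _ => ?_
    rw [integral_const_mul, integral_sub (integrable_rho hf (continuous_cos _ _))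
      (integrable_rho hf (continuous_cos _ _))]
    rfl
  · intro j _
    exact ((integrable_rho hf (continuous_cos _ _)).sub
      (integrable_rho hf (continuous_cos _ _))).const_mul _

end

/-- **MG1** -/
theorem mg1 (hCRL : CrlStmt) (hCOM : ComStmt) (hOSC : OscStmt) (_hCNT : CntStmt) : Mg1Stmt := by
  intro alpha cut L P ha hL hcut y f hf w hw hme i
  obtain ⟨hV, hcurl⟩ := hCRL cut L alpha P y
  have hpi := Real.pi_pos
  have hc0 : 0 < cut := (om_pos hL i).trans (om_lt i)
  set m := ∫ x, ‖f x‖ ^ 2 with hm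
  set e := ∫ x, ∑ j, ‖cv (VV alpha P y) j f x‖ ^ 2 with he
  have he0 : 0 ≤ e := integral_nonneg fun x => Finset.sum_nonneg fun _ _ => sq_nonneg _
  have hm0 : 0 ≤ m := integral_nonneg fun x => sq_nonneg _
  -- the cutoff function
  have heta : ContDiff ℝ (⊤ : ℕ∞) fun x => Real.sin (dot (kk i) x - tt i) :=
    Real.contDiff_sin.comp (contDiff_dot _ _)
  have hpd : ∀ (x : X3) (j : Fin 3), |pd j (fun x => Real.sin (dot (kk i) x - tt i)) x| ≤ cut := by
    intro x j
    rw [pd_sin, abs_mul]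
    have h1 : |kk i j| ≤ cut := by
      refine abs_le_of_sq_le_sq ?_ hc0.le
      have h2 : kk i j ^ 2 ≤ Helper49_Pauli.sq (kk i) :=
        Finset.single_le_sum (f := fun j => kk i j ^ 2) (fun _ _ => sq_nonneg _)
          (Finset.mem_univ j)
      exact h2.trans (sq_kk_le i)
    calc |Real.cos (dot (kk i) x - tt i)| * |kk i j| ≤ 1 * cut :=
          mul_le_mul (Real.abs_cos_le_one _) h1 (abs_nonneg _) zero_le_one
      _ = cut := one_mul _
  have hcom : ∀ c : Fin 3, |∫ x, Real.sin (dot (kk i) x - tt i) * BB alpha P y x c * ‖f x‖ ^ 2| ≤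
      e + 2 * cut * w := by
    intro c
    have h1 := hCOM (VV alpha P y) hV f hf (fun x => Real.sin (dot (kk i) x - tt i)) cut w heta
      (fun x => Real.abs_sin_le_one _) hpd hw hme c
    simp only [hcurl] at h1
    exact h1
  -- first expression of the integral
  set J := ∫ x, (Real.sin (dot (kk i) x - tt i) * ∑ c, uv P i c * BB alpha P y x c) * ‖f x‖ ^ 2
    with hJ
  have hBc : ∀ c, Continuous fun x => Real.sin (dot (kk i) x - tt i) * BB alpha P y x c := by
    intro c
    refine heta.continuous.mul ?_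
    unfold BB
    refine (continuous_const.mul (continuous_finsetSum _ fun j _ => ?_)).neg
    exact continuous_const.mul ((continuous_const.mul
      (Real.continuous_sin.comp (contDiff_dot _ _).continuous)).mul continuous_const)
  have hJ1 : J = ∑ c, uv P i c * ∫ x, Real.sin (dot (kk i) x - tt i) * BB alpha P y x c *
      ‖f x‖ ^ 2 := by
    have h1 : ∀ x : X3, (Real.sin (dot (kk i) x - tt i) * ∑ c, uv P i c * BB alpha P y x c) *
        ‖f x‖ ^ 2 = ∑ c, uv P i c * (Real.sin (dot (kk i) x - tt i) * BB alpha P y x c *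
          ‖f x‖ ^ 2) := by
      intro x
      rw [Finset.mul_sum, Finset.sum_mul]
      exact Finset.sum_congr rfl fun c _ => by ring
    rw [hJ]
    simp only [h1]
    rw [integral_finsetSum]
    · exact Finset.sum_congr rfl fun c _ => integral_const_mul _ _
    · intro c _
      exact (integrable_rho hf (hBc c)).const_mul _
  have hJle : |J| ≤ 3 * (e + 2 * cut * w) := by
    rw [hJ1]
    refine (Finset.abs_sum_le_sum_abs _ _).trans ?_
    have h1 : ∀ c ∈ (Finset.univ : Finset (Fin 3)), |uv P i c *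
        ∫ x, Real.sin (dot (kk i) x - tt i) * BB alpha P y x c * ‖f x‖ ^ 2| ≤
        e + 2 * cut * w := by
      intro c _
      rw [abs_mul]
      calc |uv P i c| * |∫ x, Real.sin (dot (kk i) x - tt i) * BB alpha P y x c * ‖f x‖ ^ 2| ≤
          1 * (e + 2 * cut * w) :=
            mul_le_mul (abs_uv_le hL P i c) (hcom c) (abs_nonneg _) zero_le_one
        _ = e + 2 * cut * w := one_mul _
    refine (Finset.sum_le_card_nsmul _ _ _ h1).trans (le_of_eq ?_)
    rw [Finset.card_univ, Fintype.card_fin, nsmul_eq_mul]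
    norm_num
  -- second expression
  have hJ2 : J = -(Real.sqrt alpha * ∑ j, (y j * am j * dd P i j * (1 / 2)) *
      (IA f i j - IC f i j)) := integral_expand alpha P y i hf
  set q := L * w / Real.pi with hq
  have hq0 : 0 ≤ q := by positivity
  have hIAi : IA f i i = m := by
    unfold IA
    have h1 : ∀ x : X3, Real.cos (dot (kk i - kk i) x - (tt i - tt i)) * ‖f x‖ ^ 2 =
        ‖f x‖ ^ 2 := by
      intro x
      have h5 : dot 0 x = 0 := by simp [dot]
      rw [sub_self, sub_self, h5, sub_zero, Real.cos_zero, one_mul]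
    simp only [h1]
    rfl
  have hterm : ∀ j : Mode cut L, |(y j * am j * dd P i j * (1 / 2)) * (IA f i j - IC f i j) -
      (if j = i then y i * (am i * om i) * (1 / 2) * m else 0)| ≤ |y j| * (cut ^ 2 * q) := by
    intro j
    have hC := IC_le hOSC hV hf hL i j hw hme
    have hamom := am_om_le hL hcut j
    have ham := am_nonneg j
    have hdd := abs_dd_le hL P i j
    by_cases hji : j = i
    · subst hji
      rw [if_pos rfl, hIAi, dd_self hL]
      have h1 : y j * am j * om j * (1 / 2) * (m - IC f j j) - y j * (am j * om j) * (1 / 2) * m =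
          -(y j * ((am j * om j) * (1 / 2 * IC f j j))) := by ring
      rw [h1, abs_neg, abs_mul]
      refine mul_le_mul_of_nonneg_left ?_ (abs_nonneg _)
      rw [abs_mul, abs_of_nonneg (mul_nonneg ham (om_nonneg j)), abs_mul]
      refine mul_le_mul hamom ?_ (by positivity) (by positivity)
      rw [abs_of_pos (by norm_num : (0 : ℝ) < 1 / 2)]
      linarith [abs_nonneg (IC f j j)]
    · rw [if_neg hji, sub_zero]
      by_cases h1 : j.1 = i.1
      · rw [dd_zero P i j h1 hji]
        simp only [mul_zero, zero_mul, abs_zero]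
        positivity
      · have hA := IA_le hOSC hV hf hL (i := i) h1 hw hme
        have h2 : y j * am j * dd P i j * (1 / 2) * (IA f i j - IC f i j) =
            y j * ((am j * dd P i j) * (1 / 2 * (IA f i j - IC f i j))) := by ring
        rw [h2, abs_mul]
        refine mul_le_mul_of_nonneg_left ?_ (abs_nonneg _)
        rw [abs_mul, abs_mul, abs_of_nonneg ham, abs_mul]
        have h3 : am j * |dd P i j| ≤ cut ^ 2 :=
          (mul_le_mul_of_nonneg_left hdd ham).trans hamom
        refine mul_le_mul h3 ?_ (by positivity) (by positivity)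
        rw [abs_of_pos (by norm_num : (0 : ℝ) < 1 / 2)]
        have h4 : |IA f i j - IC f i j| ≤ |IA f i j| + |IC f i j| := abs_sub _ _
        linarith
  have hsum : |(∑ j, (y j * am j * dd P i j * (1 / 2)) * (IA f i j - IC f i j)) -
      y i * (am i * om i) * (1 / 2) * m| ≤ (∑ j, |y j|) * (cut ^ 2 * q) := by
    have h1 : y i * (am i * om i) * (1 / 2) * m =
        ∑ j, if j = i then y i * (am i * om i) * (1 / 2) * m else 0 := by
      rw [Finset.sum_ite_eq' Finset.univ i, if_pos (Finset.mem_univ i)]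
    rw [h1, ← Finset.sum_sub_distrib, Finset.sum_mul]
    exact (Finset.abs_sum_le_sum_abs _ _).trans (Finset.sum_le_sum fun j _ => hterm j)
  have hsa : 0 < Real.sqrt alpha := Real.sqrt_pos.mpr ha
  set S := ∑ j, (y j * am j * dd P i j * (1 / 2)) * (IA f i j - IC f i j) with hS
  have h1 : |y i * (am i * om i) * (1 / 2) * m| ≤ |S| + (∑ j, |y j|) * (cut ^ 2 * q) := by
    have h2 : |y i * (am i * om i) * (1 / 2) * m| ≤ |S| + |S - y i * (am i * om i) * (1 / 2) * m| := by
      have := abs_sub S (S - y i * (am i * om i) * (1 / 2) * m)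
      rw [sub_sub_cancel] at this
      exact this
    linarith
  have h2 : |J| = Real.sqrt alpha * |S| := by
    rw [hJ2, abs_neg, abs_mul, abs_of_pos hsa]
  have h3 : |y i * (am i * om i) * (1 / 2) * m| = 1 / 2 * (am i * om i) * |y i| * m := by
    rw [abs_mul, abs_mul, abs_mul, abs_of_nonneg (mul_nonneg (am_nonneg i) (om_nonneg i)),
      abs_of_nonneg hm0, abs_of_pos (by norm_num : (0 : ℝ) < 1 / 2)]
    ring
  rw [h3] at h1
  have h4 := mul_le_mul_of_nonneg_left h1 hsa.le
  rw [mul_add, ← h2] at h4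
  have h5 : 1 / 2 * Real.sqrt alpha * (am i * om i) * |y i| * m =
      Real.sqrt alpha * (1 / 2 * (am i * om i) * |y i| * m) := by ring
  rw [h5]
  have h6 : Real.sqrt alpha * ((∑ j, |y j|) * (cut ^ 2 * q)) =
      Real.sqrt alpha * (∑ i', |y i'|) * cut ^ 2 * q := by ring
  rw [h6] at h4
  linarith

end Pool.Agent.MBX.H81
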